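import Pool.Agent.Run7.h102.LW.REL
import Pool.Agent.Run7.h416.LW.Key

/-! Piece DEC of helper520's project MP_75b3be_lc. -/

set_option autoImplicit false
set_option linter.all false

namespace Run7.h102.LW
open Classical Finset Run7.h520.LW Run7.h416.LW

variable {V : Type} [DecidableEq V] {M : Str V} {Ω : Set V} {H A : Finset V} {n0 : ℕ}

/-- the new incidences of the points of `A` outside `H` with the lines of `H` not in `A` -/
noncomputable def PQ (M : Str V) (H A : Finset V) : Finset (V × (ℕ × List V)) :=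
  ((A \ H) ×ˢ lin H).filter (fun e => M.On e.1 e.2 ∧ e.2 ∉ lin A)

theorem mem_PQ {e : V × (ℕ × List V)} : e ∈ PQ M H A ↔
    (e.1 ∈ A ∧ e.1 ∉ H) ∧ e.2 ∈ lin H ∧ M.On e.1 e.2 ∧ e.2 ∉ lin A := by
  unfold PQ
  rw [Finset.mem_filter, Finset.mem_product, Finset.mem_sdiff, and_assoc]

theorem PQ_sub_nic : PQ M H A ⊆ M.nic H A := by
  intro e he
  rw [mem_PQ] at he
  rw [mem_nic, Str.mem_ic, Str.mem_ic, Str.mem_ic]
  exact ⟨⟨Finset.mem_union_right _ he.1.1, lin_mono Finset.subset_union_left he.2.1, he.2.2.1⟩,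
    fun h => he.1.2 h.1, fun h => he.2.2.2 h.2.1⟩

/-- a line of `H ∪ A` containing a point is a line of `H` -/
theorem lin_of_pt (hV : ∀ x ∈ A, x ∉ H → M.pt x) {l : ℕ × List V} (hl : l ∈ lin (H ∪ A)) {x : V}
    (hx : M.On x l) : l ∈ lin H := by
  rw [mem_lin] at hl ⊢
  refine ⟨hl.1, hl.2.1, fun y hy => ?_⟩
  by_contra hn
  rcases Finset.mem_union.1 (hl.2.2 y hy) with h | h
  · exact hn h
  · exact hx.ne hy (hV y h hn)

/-- the common lines of the two end points -/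
noncomputable def cc (M : Str V) (H : Finset V) (e : V × V) : ℝ :=
  ∑ l ∈ (lin H).filter (fun l => M.On e.1 l ∧ M.On e.2 l), q (l.1 + 1)

theorem cc_swap (x y : V) : cc M H (x, y) = cc M H (y, x) := by
  unfold cc
  congr 1
  ext l
  simp only [Finset.mem_filter]
  tauto

theorem F1_le (hV : ∀ x ∈ A, x ∉ H → M.pt x) :
    ∑ e ∈ (M.nfl H A).filter (fun e => e.1 ∈ M.ned H A), q (e.2.1 + 1) ≤
      ∑ e ∈ M.ned H A, cc M H e := by
  have h5 : ∑ e ∈ M.ned H A, cc M H e =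
      ∑ e ∈ ((M.ned H A) ×ˢ lin H).filter (fun e => M.On e.1.1 e.2 ∧ M.On e.1.2 e.2),
        q (e.2.1 + 1) := by
    rw [Finset.sum_filter, Finset.sum_product]
    apply Finset.sum_congr rfl
    intro x _
    unfold cc
    rw [Finset.sum_filter]
  rw [h5]
  apply Finset.sum_le_sum_of_subset_of_nonneg
  · rintro ⟨e, l⟩ he
    rw [Finset.mem_filter, mem_nfl, Str.mem_fl] at he
    rw [Finset.mem_filter, Finset.mem_product]
    exact ⟨⟨he.2, lin_of_pt hV he.1.1.2.1 he.1.1.2.2.1⟩, he.1.1.2.2⟩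
  · intro e _ _
    exact (q_pos _).le

theorem F2_le (hA : M.PC A Ω) (hH : ↑H ⊆ Ω) (hV : ∀ x ∈ A, x ∉ H → M.pt x) :
    ∑ e ∈ (M.nfl H A).filter (fun e => ¬ e.1 ∈ M.ned H A), q (e.2.1 + 1) ≤
      ∑ e ∈ PQ M H A, 2 * ((N e.2.1 : ℝ) * q (e.2.1 + 1)) := by
  set T1 := (PQ M H A ×ˢ A).filter (fun t => M.On t.2 t.1.2) with hT1
  have e1 : ∑ e ∈ T1.image (fun t => ((t.1.1, t.2), t.1.2)), q (e.2.1 + 1) =
      ∑ t ∈ T1, q (t.1.2.1 + 1) := by
    rw [Finset.sum_image]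
    intro x _ y _ hxy
    simp only [Prod.mk.injEq] at hxy
    exact Prod.ext (Prod.ext hxy.1.1 hxy.2) hxy.1.2
  have e2 : ∑ e ∈ T1.image (fun t => ((t.2, t.1.1), t.1.2)), q (e.2.1 + 1) =
      ∑ t ∈ T1, q (t.1.2.1 + 1) := by
    rw [Finset.sum_image]
    intro x _ y _ hxy
    simp only [Prod.mk.injEq] at hxy
    exact Prod.ext (Prod.ext hxy.1.2 hxy.2) hxy.1.1
  have hsub : (M.nfl H A).filter (fun e => ¬ e.1 ∈ M.ned H A) ⊆
      T1.image (fun t => ((t.1.1, t.2), t.1.2)) ∪ T1.image (fun t => ((t.2, t.1.1), t.1.2)) := by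
    rintro ⟨⟨x, y⟩, l⟩ he
    rw [Finset.mem_filter, mem_nfl, Str.mem_fl] at he
    obtain ⟨⟨⟨h1, h2, h3, h4⟩, h5, h6⟩, h7⟩ := he
    simp only at h1 h2 h3 h4 h7
    have hlH : l ∈ lin H := lin_of_pt hV h2 h3
    have hnH : (x, y) ∉ M.ed H := fun h => h5 (Str.mem_fl.2 ⟨h, hlH, h3, h4⟩)
    have hyA : (x, y) ∈ M.ed A := by
      by_contra h
      exact h7 (mem_ned.2 ⟨h1, hnH, h⟩)
    have hlA : l ∉ lin A := fun h => h6 (Str.mem_fl.2 ⟨hyA, h, h3, h4⟩)
    rw [Str.mem_ed] at hyA hnH h1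
    simp only at hyA hnH h1
    rw [Finset.mem_union, Finset.mem_image, Finset.mem_image]
    by_cases hx : x ∈ H
    · have hy : y ∉ H := fun hy => hnH ⟨hx, hy, hyA.2.2⟩
      right
      refine ⟨((y, l), x), ?_, rfl⟩
      rw [hT1, Finset.mem_filter, Finset.mem_product, mem_PQ]
      exact ⟨⟨⟨⟨hyA.2.1, hy⟩, hlH, h4, hlA⟩, hyA.1⟩, h3⟩
    · left
      refine ⟨((x, l), y), ?_, rfl⟩
      rw [hT1, Finset.mem_filter, Finset.mem_product, mem_PQ]
      exact ⟨⟨⟨⟨hyA.1, hx⟩, hlH, h3, hlA⟩, hyA.2.1⟩, h4⟩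
  have h8 : ∑ t ∈ T1, q (t.1.2.1 + 1) ≤ ∑ e ∈ PQ M H A, ((N e.2.1 : ℝ) * q (e.2.1 + 1)) := by
    rw [hT1, Finset.sum_filter, Finset.sum_product]
    apply Finset.sum_le_sum
    intro e he
    rw [← Finset.sum_filter]
    change ∑ x ∈ A.filter (fun x => M.On x e.2), q (e.2.1 + 1) ≤ _
    rw [Finset.sum_const, nsmul_eq_mul]
    apply mul_le_mul_of_nonneg_right _ (q_pos _).le
    rw [mem_PQ] at he
    have h9 : (M.pts e.2 A).card < N e.2.1 := by
      apply hA.pts_lt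
      · intro z hz
        exact hH ((mem_lin.1 he.2.1).2.2 z hz)
      · by_contra hcon
        push Not at hcon
        exact he.2.2.2 (mem_lin.2 ⟨(mem_lin.1 he.2.1).1, (mem_lin.1 he.2.1).2.1, hcon⟩)
    have h10 : (A.filter fun x => M.On x e.2).card ≤ N e.2.1 := h9.le
    exact_mod_cast h10
  calc _ ≤ ∑ e ∈ T1.image (fun t => ((t.1.1, t.2), t.1.2)) ∪
        T1.image (fun t => ((t.2, t.1.1), t.1.2)), q (e.2.1 + 1) :=
        Finset.sum_le_sum_of_subset_of_nonneg hsub (fun _ _ _ => (q_pos _).le)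
    _ ≤ ∑ e ∈ T1.image (fun t => ((t.1.1, t.2), t.1.2)), q (e.2.1 + 1) +
        ∑ e ∈ T1.image (fun t => ((t.2, t.1.1), t.1.2)), q (e.2.1 + 1) := by
        rw [← Finset.sum_union_inter]
        have : 0 ≤ ∑ e ∈ T1.image (fun t => ((t.1.1, t.2), t.1.2)) ∩
            T1.image (fun t => ((t.2, t.1.1), t.1.2)), q (e.2.1 + 1) :=
          Finset.sum_nonneg (fun _ _ => (q_pos _).le)
        linarith
    _ = 2 * ∑ t ∈ T1, q (t.1.2.1 + 1) := by rw [e1, e2]; ring
    _ ≤ 2 * ∑ e ∈ PQ M H A, ((N e.2.1 : ℝ) * q (e.2.1 + 1)) := by linarith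
    _ = _ := by rw [Finset.mul_sum]

/-- the bound of `edge_cost` -/
noncomputable def bb (M : Str V) (H : Finset V) (p y : V) : ℝ :=
  ∑ i ∈ (Lp M p H).image Prod.fst, ((nn M i p y H - 1 : ℕ) : ℝ) * q (i + 1)

theorem bb_nonneg (p y : V) : 0 ≤ bb M H p y :=
  Finset.sum_nonneg fun i _ => mul_nonneg (Nat.cast_nonneg _) (q_pos _).le

theorem bb_sum (hC1 : M.C1 Ω) (hH : ↑H ⊆ Ω)
    (hnl : ∀ p ∈ A, p ∉ H → ∀ j ≤ n0, M.nl j p H ≤ 1) (hcard : A.card < g n0) :
    ∑ p ∈ A \ H, ∑ y ∈ H \ A, bb M H p y ≤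
      ∑ e ∈ PQ M H A, ((K e.2.1 : ℝ) * g e.2.1 * q (e.2.1 + 1)) := by
  have h5 : ∑ e ∈ PQ M H A, ((K e.2.1 : ℝ) * g e.2.1 * q (e.2.1 + 1)) =
      ∑ p ∈ A \ H, ∑ l ∈ (lin H).filter (fun l => M.On p l ∧ l ∉ lin A),
        ((K l.1 : ℝ) * g l.1 * q (l.1 + 1)) := by
    unfold PQ
    rw [Finset.sum_filter, Finset.sum_product]
    apply Finset.sum_congr rfl
    intro x _
    rw [Finset.sum_filter]
  rw [h5]
  apply Finset.sum_le_sum
  intro p hp
  rw [Finset.mem_sdiff] at hp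
  set I := (Lp M p H).image Prod.fst with hI
  have h1 : ∑ y ∈ H \ A, bb M H p y ≤
      ∑ i ∈ I, (if 2 ≤ M.nl i p H then (K i : ℝ) * (g i * M.nl i p H) else 0) * q (i + 1) := by
    calc ∑ y ∈ H \ A, bb M H p y
        = ∑ i ∈ I, ((∑ x ∈ H \ A, (nn M i p x H - 1) : ℕ) : ℝ) * q (i + 1) := by
          unfold bb
          rw [Finset.sum_comm]
          apply Finset.sum_congr rfl
          intro i _
          rw [← Finset.sum_mul]
          push_cast
          rfl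
      _ ≤ _ := by
          apply Finset.sum_le_sum
          intro i _
          exact mul_le_mul_of_nonneg_right (sum_excess hC1 hH Finset.sdiff_subset i) (q_pos _).le
  refine h1.trans ?_
  have hmaps : ∀ l ∈ Lp M p H, l.1 ∈ I := fun l hl => Finset.mem_image_of_mem _ hl
  have h2 : ∑ l ∈ (lin H).filter (fun l => M.On p l ∧ l ∉ lin A), ((K l.1 : ℝ) * g l.1 * q (l.1 + 1))
      = ∑ l ∈ Lp M p H, (if l ∉ lin A then ((K l.1 : ℝ) * g l.1 * q (l.1 + 1)) else 0) := by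
    rw [← Finset.sum_filter]
    unfold Lp
    rw [Finset.filter_filter]
  rw [h2, ← Finset.sum_fiberwise_of_maps_to hmaps]
  apply Finset.sum_le_sum
  intro i _
  split_ifs with h
  · have hi : n0 < i := by
      by_contra hcon
      have := hnl p hp.1 hp.2 i (not_lt.1 hcon)
      omega
    have h3 : ∀ l ∈ (Lp M p H).filter (fun l => l.1 = i),
        (if l ∉ lin A then ((K l.1 : ℝ) * g l.1 * q (l.1 + 1)) else 0) =
        (K i : ℝ) * g i * q (i + 1) := by
      intro l hl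
      rw [Finset.mem_filter] at hl
      have h4 : l ∉ lin A := by
        intro h4
        have := lin_level h4 hcard
        omega
      rw [if_pos h4, hl.2]
    rw [Finset.sum_congr rfl h3, Finset.sum_const, ← nl_eq, nsmul_eq_mul]
    apply le_of_eq
    ring
  · rw [zero_mul]
    apply Finset.sum_nonneg
    intro l _
    split_ifs
    · exact le_rfl
    · have := q_pos (l.1 + 1)
      positivity

theorem E2_le (hC1 : M.C1 Ω) (hH : ↑H ⊆ Ω)
    (hnl : ∀ p ∈ A, p ∉ H → ∀ j ≤ n0, M.nl j p H ≤ 1) (hcard : A.card < g n0) :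
    ∑ e ∈ M.ned H A, (cc M H e - w 0) ≤
      ∑ e ∈ PQ M H A, 2 * ((K e.2.1 : ℝ) * g e.2.1 * q (e.2.1 + 1)) := by
  have hb := bb_sum (A := A) hC1 hH hnl hcard
  rw [← Finset.sum_product' (A \ H) (H \ A) (fun p y => bb M H p y)] at hb
  rw [← Finset.sum_filter_add_sum_filter_not (M.ned H A) (fun e => e.1 ∈ H)]
  have h1 : ∑ e ∈ (M.ned H A).filter (fun e => e.1 ∈ H), (cc M H e - w 0) ≤
      ∑ e ∈ (A \ H) ×ˢ (H \ A), bb M H e.1 e.2 := by
    calc _ ≤ ∑ e ∈ (M.ned H A).filter (fun e => e.1 ∈ H), bb M H e.2 e.1 := by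
          apply Finset.sum_le_sum
          rintro ⟨x, y⟩ _
          rw [cc_swap]
          exact edge_cost
      _ = ∑ e ∈ ((M.ned H A).filter (fun e => e.1 ∈ H)).image Prod.swap, bb M H e.1 e.2 := by
          rw [Finset.sum_image]
          · rfl
          · intro x _ y _ hxy
            exact Prod.swap_injective hxy
      _ ≤ _ := by
          apply Finset.sum_le_sum_of_subset_of_nonneg
          · intro e he
            rw [Finset.mem_image] at he
            obtain ⟨⟨x, y⟩, he, rfl⟩ := he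
            rw [Finset.mem_filter, mem_ned, Str.mem_ed, Str.mem_ed, Str.mem_ed] at he
            obtain ⟨⟨⟨h1, h2, h3⟩, h4, h5⟩, h6⟩ := he
            simp only [Finset.mem_union] at h1 h2 h3 h4 h5 h6
            have hy : y ∉ H := fun hy => h4 ⟨h6, hy, h3⟩
            have hyA : y ∈ A := h2.resolve_left hy
            have hx : x ∉ A := fun hx => h5 ⟨hx, hyA, h3⟩
            simp only [Prod.swap, Finset.mem_product, Finset.mem_sdiff]
            exact ⟨⟨hyA, hy⟩, h6, hx⟩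
          · intro e _ _
            exact bb_nonneg _ _
  have h2 : ∑ e ∈ (M.ned H A).filter (fun e => ¬ e.1 ∈ H), (cc M H e - w 0) ≤
      ∑ e ∈ (A \ H) ×ˢ (H \ A), bb M H e.1 e.2 := by
    calc _ ≤ ∑ e ∈ (M.ned H A).filter (fun e => ¬ e.1 ∈ H), bb M H e.1 e.2 := by
          apply Finset.sum_le_sum
          rintro ⟨x, y⟩ _
          exact edge_cost
      _ ≤ _ := by
          apply Finset.sum_le_sum_of_subset_of_nonneg
          · rintro ⟨x, y⟩ he
            rw [Finset.mem_filter, mem_ned, Str.mem_ed, Str.mem_ed, Str.mem_ed] at he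
            obtain ⟨⟨⟨h1, h2, h3⟩, h4, h5⟩, h6⟩ := he
            simp only [Finset.mem_union] at h1 h2 h3 h4 h5 h6
            have hxA : x ∈ A := h1.resolve_left h6
            have hy : y ∉ A := fun hy => h5 ⟨hxA, hy, h3⟩
            have hyH : y ∈ H := h2.resolve_right hy
            simp only [Finset.mem_product, Finset.mem_sdiff]
            exact ⟨⟨hxA, h6⟩, hyH, hy⟩
          · intro e _ _
            exact bb_nonneg _ _
  rw [← Finset.mul_sum]
  linarith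

/-- **Adding the points of `A` to `H`.** -/
theorem add_points (hCa : S_CALC) (hC1 : M.C1 Ω) (hH : ↑H ⊆ Ω) (hA : M.PC A Ω)
    (hV : ∀ x ∈ A, x ∉ H → M.pt x) (hnl : ∀ p ∈ A, p ∉ H → ∀ j ≤ n0, M.nl j p H ≤ 1)
    (hcard : A.card < g n0) : M.dl (H ∪ A) + M.dl (H ∩ A) ≤ M.dl H + M.dl A := by
  have h1 := hCa.incl M H A
  have h2 := F1_le (M := M) hV
  have h3 := F2_le hA hH hV
  have h4 := E2_le hC1 hH hnl hcard
  have h5 := Finset.sum_filter_add_sum_filter_not (M.nfl H A) (fun e => e.1 ∈ M.ned H A)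
    (fun e => q (e.2.1 + 1))
  rw [Finset.sum_sub_distrib, Finset.sum_const, nsmul_eq_mul] at h4
  have h6 : ∑ e ∈ PQ M H A, 2 * ((N e.2.1 : ℝ) * q (e.2.1 + 1)) +
      ∑ e ∈ PQ M H A, 2 * ((K e.2.1 : ℝ) * g e.2.1 * q (e.2.1 + 1)) ≤
      ∑ e ∈ M.nic H A, a e.2.1 := by
    rw [← Finset.sum_add_distrib]
    calc _ ≤ ∑ e ∈ PQ M H A, a e.2.1 := by
          apply Finset.sum_le_sum
          intro e _
          have e1 := N_small e.2.1
          have e2 := eps_small e.2.1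
          have e3 := a_ge e.2.1
          have e4 := q_pos e.2.1
          have e5 : 2 * ((N e.2.1 : ℝ) * q (e.2.1 + 1)) ≤ q e.2.1 * (1 / 2 ^ 29) := by
            have : (2 : ℝ) ^ 30 * (1 / 2 ^ 29) = 2 := by norm_num
            nlinarith
          have e6 : 2 * ((K e.2.1 : ℝ) * g e.2.1 * q (e.2.1 + 1)) ≤ q e.2.1 * (1 / 2 ^ 29) := by
            have : (2 : ℝ) ^ 29 * (1 / 2 ^ 29) = 1 := by norm_num
            nlinarith
          nlinarith
      _ ≤ _ := Finset.sum_le_sum_of_subset_of_nonneg PQ_sub_nic (fun e _ _ => (a_pos _).le)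
  linarith

theorem DEC : S_CALC → S_SMK → S_HULL → S_CLO → S_DEC := by
  intro hCa hS hHu hCl V _ M Ω U B C A n0 hAmb hU hB hC hlt hA hAC hcard
  have hsub : (↑(U ∪ B) : Set V) ⊆ Ω := union_sub hU.1 hB.1
  have h1 := smk0 hS hAmb.c1 hU.1 hB.1
  obtain ⟨H', hP, hd, hY, hpt⟩ := hHu.hull hAmb.c1 hC.1.1 hC.2.1 (lines_ok hU.1 hB.1)
  have hHle : M.dl H' ≤ M.dl (U ∪ B) := by
    rcases hd with h | h
    · rw [h]
    · exact h.le
  have hCH' : M.dl C ≤ M.dl H' := hCl.isC_le hAmb hP.1 hP.2.1 hC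
  have hned := ned_nonneg M U B
  have hnic := nic_nonneg M U B
  have hε : (∑ p ∈ M.nic U B, a p.2.1) / 2 +
      ∑ e ∈ M.ned U B, (w 0 - ∑ j ∈ M.lv U B e, q (j + 1)) + (M.dl (U ∪ B) - M.dl H') +
      (M.dl H' - M.dl C) < q (n0 + 1) / 8 := by linarith
  have hq := q_pos (n0 + 1)
  have hq1 := q_le_one (n0 + 1)
  have hw : q (n0 + 1) < w n0 := by
    have e1 := w_eq n0
    have e2 := w_pos (n0 + 1)
    linarith
  have hT : (A ∩ U) ∪ (A ∩ B) = A ∩ (U ∪ B) := (Finset.inter_union_distrib_left A U B).symm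
  have hAP : M.PC A Ω := hA.1.1
  -- (i)
  have hpts : ∀ x ∈ H', x ∉ U ∪ B → M.pt x := by
    rcases hpt with h | h
    · exact h
    · exfalso; linarith
  -- (ii)
  have hnl : ∀ p ∈ Ω, p ∉ U ∪ B → ∀ j ≤ n0, M.nl j p (U ∪ B) ≤ 1 := by
    intro p hp hpn j hj
    by_contra hcon
    have h2 := hY j {p} (by simpa using hp) (by simpa using hpn) (by
      intro x hx
      rw [Finset.mem_singleton] at hx
      subst hx
      omega)
    rw [Finset.sum_singleton] at h2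
    have h3 : (2 : ℝ) ≤ (M.nl j p (U ∪ B) : ℝ) := by
      have : 2 ≤ M.nl j p (U ∪ B) := by omega
      exact_mod_cast this
    have h4 : q (n0 + 1) ≤ q j := q_anti (by omega)
    have h5 : q j / 4 * 1 ≤ q j / 4 * (2 * (M.nl j p (U ∪ B) : ℝ) - 3) := by
      apply mul_le_mul_of_nonneg_left _ (by linarith)
      linarith
    linarith
  -- (iii)
  have hAH' : A ⊆ H' := by
    by_contra hcon
    have hss : A ∩ H' ⊂ A := by
      refine ⟨Finset.inter_subset_left, fun h => hcon ?_⟩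
      exact fun x hx => (Finset.mem_inter.1 (h hx)).2
    have hPC : M.PC (A ∩ H') Ω := hAP.inter hP.1
    have hTs : (A ∩ U) ∪ (A ∩ B) ⊆ A ∩ H' := by
      rw [hT]
      exact Finset.inter_subset_inter_left hP.2.1
    have h2 : M.dl A ≤ M.dl (A ∩ H') := hCl.isC_le hAmb hPC hTs hA
    have h3 := hCa.down M n0 _ _ hss hcard h2
    obtain ⟨H2, hH2⟩ := Str.exists_isP' hAmb (union_sub hAP hP.1)
    have h4 := hCl.union_le hAmb hAP hP.1 hH2
    have h5 : M.dl C ≤ M.dl H2 :=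
      hCl.isC_le hAmb hH2.1 (hP.2.1.trans (Finset.subset_union_right.trans hH2.2.1)) hC
    linarith
  -- (iv)
  have hAH : A ⊆ U ∪ B := by
    by_contra hcon
    have hss : (A ∩ U) ∪ (A ∩ B) ⊂ A := by
      rw [hT]
      refine ⟨Finset.inter_subset_left, fun h => hcon ?_⟩
      exact fun x hx => (Finset.mem_inter.1 (h hx)).2
    obtain ⟨X1, hX1, hX1d, -, -⟩ := hHu.hull hAmb.c1 hAP hss.1
      (lines_ok (hAP.inter hU.1) (hAP.inter hB.1))
    have h2 : M.dl A ≤ M.dl X1 := hCl.isC_le hAmb hX1.1 hX1.2.1 hA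
    have h3 : M.dl A ≤ M.dl ((A ∩ U) ∪ (A ∩ B)) := by
      rcases hX1d with h | h
      · rw [← h]; exact h2
      · linarith
    have h4 := hCa.down M n0 _ _ hss hcard h3
    have h5 := (hHu.pts hAmb.c1 hP hpts).2 ((U ∪ B) ∪ A) Finset.subset_union_left
      (Finset.union_subset hP.2.1 hAH')
    have h6 := add_points (n0 := n0) hCa hAmb.c1 hsub hAP (fun x hx hxn => hpts x (hAH' hx) hxn)
      (fun p hp hpn j hj => hnl p (hAP.sub hp) hpn j hj) hcard
    have h7 : (U ∪ B) ∩ A = (A ∩ U) ∪ (A ∩ B) := by rw [hT, Finset.inter_comm]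
    rw [h7] at h6
    linarith
  have hlev : ∀ p ∈ M.nic U B, q (n0 + 1) / 8 < a p.2.1 / 2 → False := by
    intro p hp hlt'
    have h2 : a p.2.1 ≤ ∑ p ∈ M.nic U B, a p.2.1 :=
      Finset.single_le_sum (f := fun p : V × (ℕ × List V) => a p.2.1)
        (fun _ _ => (a_pos _).le) hp
    linarith
  have hlev' : ∀ j ≤ n0, q (n0 + 1) / 8 < a j / 2 := by
    intro j hj
    have e1 := a_ge j
    have e2 := q_pos j
    have e3 : q (n0 + 1) ≤ q j := q_anti (by omega)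
    nlinarith
  refine ⟨hAH, ?_, ?_⟩
  · rw [Finset.eq_empty_iff_forall_notMem]
    rintro ⟨p, l⟩ hp
    rw [mem_nic, Str.mem_ic, Str.mem_ic, Str.mem_ic, hT] at hp
    obtain ⟨⟨h2, h3, h4⟩, h5, h6⟩ := hp
    simp only at h2 h3 h4 h5 h6
    have hlA : l ∈ lin A := lin_mono Finset.inter_subset_left h3
    have hlHB : l ∈ lin (U ∪ B) := lin_mono Finset.inter_subset_right h3
    have hpA : p ∈ A := (Finset.mem_inter.1 h2).1
    have hpH : p ∈ U ∪ B := (Finset.mem_inter.1 h2).2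
    apply hlev (p, l) _ (hlev' l.1 (lin_level hlA hcard).le)
    rw [mem_nic, Str.mem_ic, Str.mem_ic, Str.mem_ic]
    refine ⟨⟨hpH, hlHB, h4⟩, fun h => h5 ?_, fun h => h6 ?_⟩
    · refine ⟨Finset.mem_inter.2 ⟨hpA, h.1⟩, ?_, h4⟩
      rw [lin_inter, Finset.mem_inter]
      exact ⟨hlA, h.2.1⟩
    · refine ⟨Finset.mem_inter.2 ⟨hpA, h.1⟩, ?_, h4⟩
      rw [lin_inter, Finset.mem_inter]
      exact ⟨hlA, h.2.1⟩
  · intro p hp hpB y hy hyU hR
    have hedge : (p, y) ∈ M.ned U B := by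
      rw [mem_ned, Str.mem_ed, Str.mem_ed, Str.mem_ed]
      exact ⟨⟨Finset.mem_union_left _ hp, Finset.mem_union_right _ hy, hR⟩,
        fun h => hyU h.2.1, fun h => hpB h.1⟩
    have hone : w 0 - ∑ j ∈ M.lv U B (p, y), q (j + 1) < q (n0 + 1) := by
      have h2 : w 0 - ∑ j ∈ M.lv U B (p, y), q (j + 1) ≤
          ∑ e ∈ M.ned U B, (w 0 - ∑ j ∈ M.lv U B e, q (j + 1)) :=
        Finset.single_le_sum (f := fun e : V × V => w 0 - ∑ j ∈ M.lv U B e, q (j + 1))
          (fun e _ => by have := w_levels' (M.lv U B e); linarith) hedge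
      linarith
    have hmem : n0 ∈ M.lv U B (p, y) := by
      by_contra hn
      have h2 := w_levels' (insert n0 (M.lv U B (p, y)))
      rw [Finset.sum_insert hn] at h2
      linarith
    unfold Str.lv at hmem
    rw [Finset.mem_image] at hmem
    obtain ⟨l, hl, hl0⟩ := hmem
    rw [Finset.mem_filter, Finset.mem_union] at hl
    obtain ⟨hl, hpl, hyl⟩ := hl
    simp only at hpl hyl
    have hlB : l ∈ lin B := by
      rcases hl with h | h
      · by_contra hn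
        apply hlev (y, l) _ (hlev' l.1 hl0.le)
        rw [mem_nic, Str.mem_ic, Str.mem_ic, Str.mem_ic]
        exact ⟨⟨Finset.mem_union_right _ hy, lin_mono Finset.subset_union_left h, hyl⟩,
          fun h' => hyU h'.1, fun h' => hn h'.2.1⟩
      · exact h
    have hlU : l ∈ lin U := by
      by_contra hn
      apply hlev (p, l) _ (hlev' l.1 hl0.le)
      rw [mem_nic, Str.mem_ic, Str.mem_ic, Str.mem_ic]
      exact ⟨⟨Finset.mem_union_left _ hp, lin_mono Finset.subset_union_right hlB, hpl⟩,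
        fun h' => hn h'.2.1, fun h' => hpB h'.1⟩
    refine ⟨l, ?_, hl0, hpl, hyl⟩
    rw [lin_inter, Finset.mem_inter]
    exact ⟨hlU, hlB⟩

end Run7.h102.LW
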