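import Pool.Agent.Run7.h520.LW.I2

/-! Piece REL of helper520's project MP_75b3be_lc. -/

set_option autoImplicit false
set_option linter.all false

namespace Run7.h102.LW
open Classical Finset Run7.h520.LW

variable {V : Type} [DecidableEq V] {G : Str V} {Z : Set V} {A B : Finset V}

/-- `S_SMK` with the empty set of pairs -/
theorem smk0 (hS : S_SMK) (h1 : G.C1 Z) (hA : G.PC A Z) (hB : G.PC B Z) :
    G.dl (A ∪ B) + G.dl (A ∩ B) + (∑ p ∈ G.nic A B, a p.2.1) / 2 +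
      ∑ e ∈ G.ned A B, (w 0 - ∑ j ∈ G.lv A B e, q (j + 1)) ≤ G.dl A + G.dl B := by
  have := hS (𝒦 := ∅) h1 hA hB (by simp) (by simp) (by simp)
  simpa using this

theorem lines_ok (hA : G.PC A Z) (hB : G.PC B Z) (l : ℕ × List V) (hl : ∀ x ∈ l.2, x ∈ Z)
    (hx : ∃ x ∈ l.2, x ∉ A ∪ B) : (G.pts l (A ∪ B)).card ≤ 2 * N l.1 := by
  obtain ⟨x, hx, hxn⟩ := hx
  rw [Finset.mem_union, not_or] at hxn
  have h1 := hA.pts_lt hl ⟨x, hx, hxn.1⟩
  have h2 := hB.pts_lt hl ⟨x, hx, hxn.2⟩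
  rw [Str.pts_union]
  have := Finset.card_union_le (G.pts l A) (G.pts l B)
  omega

theorem union_sub (hA : G.PC A Z) (hB : G.PC B Z) : (↑(A ∪ B) : Set V) ⊆ Z := by
  intro x hx
  rw [Finset.mem_coe, Finset.mem_union] at hx
  rcases hx with h | h
  · exact hA.sub h
  · exact hB.sub h

theorem ned_nonneg (G : Str V) (A B : Finset V) :
    0 ≤ ∑ e ∈ G.ned A B, (w 0 - ∑ j ∈ G.lv A B e, q (j + 1)) :=
  Finset.sum_nonneg fun e _ => by
    have := w_levels' (G.lv A B e)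
    linarith

theorem nic_nonneg (G : Str V) (A B : Finset V) : 0 ≤ ∑ p ∈ G.nic A B, a p.2.1 :=
  Finset.sum_nonneg fun e _ => (a_pos _).le

theorem REL : S_SMK → S_HULL → S_REL := by
  intro hS hH V _ G Z X C hAmb hX hC
  have h1 := smk0 hS hAmb.c1 hX hC.1
  obtain ⟨C', hC', hCl⟩ := hAmb.fin (X ∪ C) (union_sub hX hC.1)
  obtain ⟨Y, hY, hYd, -, -⟩ := hH.hull hAmb.c1 hCl.1 hC' (lines_ok hX hC.1)
  have hYle : G.dl Y ≤ G.dl (X ∪ C) := by
    rcases hYd with h | h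
    · rw [h]
    · exact h.le
  have hned := ned_nonneg G X C
  have hCY : C ⊆ Y := Finset.subset_union_right.trans hY.2.1
  have hle := hC.le hY.1 hCY
  refine ⟨by linarith, fun hn => ?_⟩
  have hlt : G.dl C < G.dl Y := hC.2 Y hY.1
    ⟨hCY, fun h => hn (Finset.subset_union_left.trans (hY.2.1.trans h))⟩
  linarith

end Run7.h102.LW
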